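import Pool.Agent.H89.LG.Fin

set_option autoImplicit false

/-!
# The period conjecture of Lagarias and Pleasants fails for all pairs `(d, j)`, `1 ≤ j ≤ d - 2`

For `d ≥ 3` let the defects be the points `z ∈ ℤ^d` with `z_d = 2^(dk)` and `2^k ∣ z_i`, where
`i = (k mod (d-1)) + 1`, for some `k`. The Delone set is a multiple of the set of the lattice points which
are not defects. It has no period: a period moves no layer (the gaps between the layers grow), and
in the layer number `k` the coordinate number `i` of a period is divisible by `2^k`, for arbitrarily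
large `k`, for each `i < d`. A point of height at most `C t` sees only layers with `2^(dk) ≤ C' t`, so its
patch of radius `t` is determined by its height and by its other coordinates modulo `2^k`:
`C t * (2^k)^(d-1) ≤ C'' t^2` patches. From a higher point at most one layer is visible, and
the patch is determined by the difference of the heights and either `k` and one coordinate modulo
`2^k ≤ C t`, or by `i` and the position of at most one visible `(d-2)`-plane. So there are `O(t^2)` patches.
-/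

namespace Pool.Agent.Results.MP_90314f_co.AllHigherPairs

/-- Euclidean space -/
abbrev E (d : ℕ) : Type := EuclideanSpace ℝ (Fin d)

/-- `(r, R)`-Delone sets: open balls of radius `r` contain at most one point, closed balls of radius
`R` contain at least one point -/
def IsDelone {d : ℕ} (r R : ℝ) (X : Set (E d)) : Prop :=
  (∀ z : E d, (X ∩ Metric.ball z r).Subsingleton) ∧
  (∀ z : E d, (X ∩ Metric.closedBall z R).Nonempty)

/-- the `t`-patch of `X` at `x` -/
def patch {d : ℕ} (X : Set (E d)) (x : E d) (t : ℝ) : Set (E d) :=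
  (fun y => y - x) '' (X ∩ Metric.closedBall x t)

/-- the set of the `t`-patches of `X`; its cardinality is `p_X(t)` -/
def patches {d : ℕ} (X : Set (E d)) (t : ℝ) : Set (Set (E d)) := {P | ∃ x ∈ X, P = patch X x t}

/-- `v ≠ 0` with `X + v = X` -/
def IsPeriod {d : ℕ} (X : Set (E d)) (v : E d) : Prop := v ≠ 0 ∧ (fun x => x + v) '' X = X

/-- the statement for the pair `(d, j)` and the radii `r, R`: there is `c > 0` such that every
`(r, R)`-Delone set in `ℝ^d` with `p_X(t) < c t^(d-j+1)` for all large `t` has `j` linearly independent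
periods -/
def PeriodStatement (d j : ℕ) (r R : ℝ) : Prop :=
  ∃ c : ℝ, 0 < c ∧ ∀ X : Set (E d), IsDelone r R X →
    (∃ t0 : ℝ, ∀ t : ℝ, t0 < t → (patches X t).Finite ∧
      ((patches X t).ncard : ℝ) < c * t ^ (d - j + 1)) →
    ∃ v : Fin j → E d, LinearIndependent ℝ v ∧ ∀ i, IsPeriod X (v i)

/-- In every dimension `d ≥ 3`, for all radii with `R ≥ (√d + 2) r`, there is an `(r, R)`-Delone set
without any period with at most `C_d (t/r)^2` patches of radius `t ≥ r`; and the period
statement is false for all pairs `(d, j)` with `1 ≤ j ≤ d - 2`. -/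
theorem result :
    (∀ d : ℕ, 3 ≤ d → ∃ C : ℕ, ∀ r R : ℝ, 0 < r → (Real.sqrt d + 2) * r ≤ R →
      ∃ X : Set (E d), IsDelone r R X ∧ (∀ v : E d, ¬ IsPeriod X v) ∧
        ∀ t : ℝ, r ≤ t → (patches X t).Finite ∧ ((patches X t).ncard : ℝ) ≤ C * (t / r) ^ 2) ∧
    (∀ d j : ℕ, 1 ≤ j → j + 2 ≤ d → ∀ r R : ℝ, 0 < r → (Real.sqrt d + 2) * r ≤ R →
      ¬ PeriodStatement d j r R) := by
  have key : ∀ d : ℕ, 3 ≤ d → ∃ C : ℕ, ∀ r R : ℝ, 0 < r → (Real.sqrt d + 2) * r ≤ R →
      ∃ X : Set (E d), IsDelone r R X ∧ (∀ v : E d, ¬ IsPeriod X v) ∧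
        ∀ t : ℝ, r ≤ t → (patches X t).Finite ∧
          ((patches X t).ncard : ℝ) ≤ C * (t / r) ^ 2 := by
    intro d hd
    obtain ⟨e, rfl⟩ : ∃ e, d = e + 2 := ⟨d - 2, by omega⟩
    obtain ⟨C, hC⟩ := Pool.Agent.H89.LG.final e
    refine ⟨C, fun r R hr hR => ?_⟩
    obtain ⟨X, h1, h2, h3, h4⟩ := hC r R hr hR
    refine ⟨X, ⟨h1, h2⟩, fun v hv => hv.1 (h4 v fun x => ?_), h3⟩
    constructor
    · intro hx
      rw [← hv.2] at hx
      obtain ⟨y, hy, hyx⟩ := hx
      have : y = x := add_right_cancel hyx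
      rwa [← this]
    · intro hx
      rw [← hv.2]
      exact ⟨x, hx, rfl⟩
  refine ⟨key, fun d j hj hjd r R hr hR => ?_⟩
  rintro ⟨c, hc, h⟩
  obtain ⟨C, hC⟩ := key d (by omega)
  obtain ⟨X, hX, hper, hcount⟩ := hC r R hr hR
  obtain ⟨v, hv, hp⟩ := h X hX (by
    refine ⟨max (max r 1) (C / (c * r ^ 2)), fun t ht => ?_⟩
    have ht1 : 1 < t := lt_of_le_of_lt ((le_max_right _ _).trans (le_max_left _ _)) ht
    have ht2 : r < t := lt_of_le_of_lt ((le_max_left _ _).trans (le_max_left _ _)) ht
    have ht3 : C / (c * r ^ 2) < t := lt_of_le_of_lt (le_max_right _ _) ht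
    obtain ⟨k1, k2⟩ := hcount t ht2.le
    refine ⟨k1, k2.trans_lt ?_⟩
    have h5 : t ^ 3 ≤ t ^ (d - j + 1) := pow_le_pow_right₀ ht1.le (by omega)
    have h6 : (C : ℝ) * (t / r) ^ 2 < c * t ^ 3 := by
      rw [div_lt_iff₀ (by positivity)] at ht3
      have h7 : (C : ℝ) * (t / r) ^ 2 = C * t ^ 2 / r ^ 2 := by rw [div_pow]; ring
      rw [h7, div_lt_iff₀ (by positivity)]
      nlinarith [pow_pos (lt_trans one_pos ht1) 2]
    exact h6.trans_le (mul_le_mul_of_nonneg_left h5 hc.le))
  exact hper _ (hp ⟨0, by omega⟩)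

end Pool.Agent.Results.MP_90314f_co.AllHigherPairs
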